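import Pool.Agent.Lib.QU62.Base

/-!
# Gabber's theorem in dimension three: modules of finite length, embeddings of colength zero

* `finite_length` (A4): a finitely generated module killed by powers of `u`, `x`, `y` has finite
  length.
* `free_of_colen_zero` (E): if `M ⧸ u M` is free and `u` is regular on `M`, then `M` is free.
-/

set_option autoImplicit false
set_option linter.unusedSectionVars false

open Pointwise

namespace Pool.Agent.QU62

open IsLocalRing

universe u w

variable {K R : Type u} [CommRing K] [IsDomain K] [IsNoetherianRing K] [IsLocalRing K]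
    [CommRing R] [IsDomain R] [IsNoetherianRing R] [IsLocalRing R] [Algebra K R] {u x y : K}

/-- If every vector is killed by a power of `a`, one power of `a` kills the module. -/
theorem exists_pow_kill {S : Type u} [CommRing S] {Q : Type w} [AddCommGroup Q] [Module S Q]
    [Module.Finite S Q] (a : S) (h : ∀ q : Q, ∃ N : ℕ, a ^ N • q = 0) :
    ∃ N : ℕ, ∀ q : Q, a ^ N • q = 0 := by
  classical
  obtain ⟨G, hG⟩ := (Module.finite_def.1 (inferInstance : Module.Finite S Q))
  choose N hN using h
  refine ⟨∑ g ∈ G, N g, fun q => ?_⟩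
  have hq : q ∈ Submodule.span S (G : Set Q) := by
    rw [hG]
    trivial
  induction hq using Submodule.span_induction with
  | mem g hg =>
    have h1 : N g ≤ ∑ g ∈ G, N g := Finset.single_le_sum (fun _ _ => Nat.zero_le _) hg
    obtain ⟨m, hm⟩ := Nat.exists_eq_add_of_le h1
    rw [hm, pow_add, mul_comm, mul_smul, hN, smul_zero]
  | zero => rw [smul_zero]
  | add a b _ _ ha hb => rw [smul_add, ha, hb, add_zero]
  | smul c a _ ha => rw [smul_comm, ha, smul_zero]

/-- **A4.** -/
theorem finite_length (h : Ctx K R u x y) (Q : Type u) [AddCommGroup Q] [Module K Q]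
    [Module.Finite K Q] (hu : ∀ q : Q, ∃ N : ℕ, u ^ N • q = 0) (hc : Cof x y (⊥ : Submodule K Q)) :
    Module.length K Q ≠ ⊤ := by
  set I : Ideal K := Module.annihilator K Q with hI
  obtain ⟨Nu, hNu⟩ := exists_pow_kill u hu
  obtain ⟨Nx, hNx⟩ := exists_pow_kill x fun q => by
    obtain ⟨N, hN, -⟩ := hc q
    exact ⟨N, by simpa using hN⟩
  obtain ⟨Ny, hNy⟩ := exists_pow_kill y fun q => by
    obtain ⟨N, -, hN⟩ := hc q
    exact ⟨N, by simpa using hN⟩
  have hrad : maximalIdeal K ≤ I.radical := by
    rw [h.max, Ideal.span_le]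
    rintro a (rfl | rfl | rfl)
    · exact ⟨Nu, Module.mem_annihilator.2 hNu⟩
    · exact ⟨Nx, Module.mem_annihilator.2 hNx⟩
    · exact ⟨Ny, Module.mem_annihilator.2 hNy⟩
  rw [Module.length_ne_top_iff, isFiniteLength_iff_isNoetherian_isArtinian]
  refine ⟨inferInstance, ?_⟩
  rcases subsingleton_or_nontrivial Q with hQ | hQ
  · infer_instance
  have hne : I ≠ ⊤ := by
    intro h1
    have h2 : (1 : K) ∈ I := by
      rw [h1]
      trivial
    obtain ⟨q, hq⟩ := exists_ne (0 : Q)
    have h3 := Module.mem_annihilator.1 h2 q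
    rw [one_smul] at h3
    exact hq h3
  have hnt : Nontrivial (K ⧸ I) := Ideal.Quotient.nontrivial_iff.2 hne
  have hloc : IsLocalRing (K ⧸ I) :=
    IsLocalRing.of_surjective' (Ideal.Quotient.mk I) Ideal.Quotient.mk_surjective
  have hart : IsArtinianRing (K ⧸ I) := by
    rw [isArtinianRing_iff_isNilpotent_maximalIdeal]
    obtain ⟨n, hn⟩ := Ideal.exists_pow_le_of_le_radical_of_fg hrad
      (IsNoetherian.noetherian (maximalIdeal K))
    refine ⟨n, ?_⟩
    have h9 : (maximalIdeal K).map (Ideal.Quotient.mk I) = maximalIdeal (K ⧸ I) :=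
      map_maximalIdeal_of_surjective _ Ideal.Quotient.mk_surjective
    rw [← h9, ← Ideal.map_pow, Ideal.zero_eq_bot, Ideal.map_eq_bot_iff_le_ker,
      Ideal.mk_ker]
    exact hn
  let inst : Module (K ⧸ I) Q := Module.quotientAnnihilator
  have hst : IsScalarTower K (K ⧸ I) Q := ⟨fun a b q => by
    obtain ⟨b, rfl⟩ := Ideal.Quotient.mk_surjective b
    exact mul_smul a b q⟩
  have hfin : Module.Finite (K ⧸ I) Q := Module.Finite.of_restrictScalars_finite K (K ⧸ I) Q
  have h1 : IsArtinian (K ⧸ I) Q := inferInstance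
  exact isArtinian_of_surjective_algebraMap (M := Q) (R := K ⧸ I) (S := K)
    Ideal.Quotient.mk_surjective

/-- **E.** -/
theorem free_of_colen_zero (h : Ctx K R u x y) (M : Type u) [AddCommGroup M] [Module K M]
    [Module.Finite K M] (hM : TF u M) {n : ℕ} (φ : M →ₗ[K] (Fin n → R))
    (hφ : Dat u x y M n φ) (h0 : LinearMap.range φ = ⊤) : Module.Free K M := by
  have hreg : IsSMulRegular M u := by
    intro v w hvw
    have h3 : u • (v - w) = 0 := by
      rw [smul_sub, sub_eq_zero]
      exact hvw
    exact sub_eq_zero.1 (hM.reg _ h3)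
  have := Module.finitePresentation_of_finite K M
  have humem : u ∈ maximalIdeal K := by
    rw [h.max]
    exact Ideal.subset_span (by simp)
  refine (Module.free_quotSMulTop_iff_free K M ?_ hreg).1 ?_
  · exact (maximalIdeal_le_jacobson _) humem
  have hu0 : ∀ w : Fin n → R, u • w = 0 := by
    intro w
    funext i
    rw [Pi.smul_apply, Algebra.smul_def, (h.ker u).2 dvd_rfl, zero_mul, Pi.zero_apply]
  have hsurj : ∀ w : Fin n → R, ∃ m, φ m = w := fun w => by
    have h1 : w ∈ LinearMap.range φ := by
      rw [h0]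
      trivial
    exact h1
  choose b hb using fun i : Fin n => hsurj (Pi.single i 1)
  have hsum : ∀ (c : Fin n → K) (j : Fin n), φ (∑ i, c i • b i) j = algebraMap K R (c j) := by
    intro c j
    rw [map_sum, Finset.sum_apply, Finset.sum_eq_single j]
    · rw [map_smul, hb, Pi.smul_apply, Pi.single_eq_same, Algebra.smul_def, mul_one]
    · intro i _ hij
      rw [map_smul, hb, Pi.smul_apply, Pi.single_eq_of_ne hij.symm, smul_zero]
    · intro hj
      exact absurd (Finset.mem_univ j) hj
  have hmk : ∀ (c : K) (m : M), (Ideal.Quotient.mk (Ideal.span {u}) c) •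
      (Submodule.Quotient.mk m : QuotSMulTop u M) = Submodule.Quotient.mk (c • m) :=
    fun c m => rfl
  have hmks : ∀ w : Fin n → M, (Submodule.Quotient.mk (∑ i, w i) : QuotSMulTop u M) =
      ∑ i, Submodule.Quotient.mk (w i) := fun w =>
    map_sum (Submodule.mkQ (u • (⊤ : Submodule K M))) w Finset.univ
  have hli : LinearIndependent (K ⧸ Ideal.span {u})
      fun i => (Submodule.Quotient.mk (b i) : QuotSMulTop u M) := by
    rw [Fintype.linearIndependent_iff]
    intro g hg j
    choose c hc using fun i => Ideal.Quotient.mk_surjective (g i)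
    have h1 : (Submodule.Quotient.mk (∑ i, c i • b i) : QuotSMulTop u M) = 0 := by
      rw [← hg, hmks]
      refine Finset.sum_congr rfl fun i _ => ?_
      rw [← hc i, hmk]
    rw [Submodule.Quotient.mk_eq_zero] at h1
    obtain ⟨m, -, hm⟩ := (Submodule.mem_smul_pointwise_iff_exists _ _ _).1 h1
    have h2 : algebraMap K R (c j) = 0 := by
      rw [← hsum c j, ← hm, map_smul, hu0, Pi.zero_apply]
    rw [← hc j, Ideal.Quotient.eq_zero_iff_mem, Ideal.mem_span_singleton]
    exact (h.ker _).1 h2
  refine Module.Free.of_basis (Module.Basis.mk hli ?_)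
  rintro q -
  obtain ⟨m, rfl⟩ := Submodule.Quotient.mk_surjective _ q
  choose c hc using fun i => h.surj (φ m i)
  obtain ⟨m', hm'⟩ := hφ.ker (m - ∑ i, c i • b i) (by
    funext j
    rw [map_sub, Pi.sub_apply, hsum, hc, sub_self, Pi.zero_apply])
  have h1 : (Submodule.Quotient.mk m : QuotSMulTop u M) =
      ∑ i, (Ideal.Quotient.mk (Ideal.span {u}) (c i)) •
        (Submodule.Quotient.mk (b i) : QuotSMulTop u M) := by
    have h2 : (Submodule.Quotient.mk (m - ∑ i, c i • b i) : QuotSMulTop u M) = 0 := by
      rw [Submodule.Quotient.mk_eq_zero, hm']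
      exact Submodule.smul_mem_pointwise_smul _ _ _ trivial
    rw [Submodule.Quotient.mk_sub, sub_eq_zero, hmks] at h2
    rw [h2]
    exact Finset.sum_congr rfl fun i _ => (hmk _ _).symm
  rw [h1]
  exact Submodule.sum_mem _ fun i _ => Submodule.smul_mem _ _ (Submodule.subset_span ⟨i, rfl⟩)

end Pool.Agent.QU62
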